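import Mathlib

open MeasureTheory Set Real Filter Metric Topology
open scoped ENNReal

namespace Pool.Agent.Results.MP_ec5c38_an.No

/-- The constant `C_{N,k}`. -/
noncomputable def C (N k : ℕ) : ℝ :=
  (∏ j ∈ Finset.Icc 1 k, ((j : ℝ) * N - k) / N) ^ ((N : ℝ) / k)

/-- Statement (i) for `k = 2` (so `∇^k u = Δ u`) in the ball `B_R ⊂ ℝ^N`. -/
def Ineq (N : ℕ) (R : ℝ) : Prop :=
  ∀ u : EuclideanSpace ℝ (Fin N) → ℝ, ContDiff ℝ 2 u → HasCompactSupport u →
    tsupport u ⊆ ball 0 R →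
    ENNReal.ofReal (C N 2) * ∫⁻ x in ball 0 R,
      ENNReal.ofReal (|u x| ^ ((N : ℝ) / 2) / (‖x‖ ^ N * log (R / ‖x‖) ^ N)) ≤
    ∫⁻ x in ball 0 R, ENNReal.ofReal (|Laplacian.laplacian u x| ^ ((N : ℝ) / 2))

lemma glue {φ ψ : ℝ → ℝ} (h : ∀ w ≥ 0, HasDerivAt φ (ψ w) w) (h0 : ψ 0 = 0) (w : ℝ) :
    HasDerivAt (fun w => φ (max w 0)) (ψ (max w 0)) w := by
  rcases lt_trichotomy w 0 with hw | rfl | hw
  · rw [max_eq_right hw.le, h0]
    refine (hasDerivAt_const w (φ 0)).congr_of_eventuallyEq ?_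
    filter_upwards [Iio_mem_nhds hw] with v hv using by rw [max_eq_right (le_of_lt hv)]
  · rw [max_self, ← hasDerivWithinAt_univ, ← Iic_union_Ici (a := (0 : ℝ))]
    refine HasDerivWithinAt.union ?_ ?_
    · rw [h0]
      exact (hasDerivAt_const _ (φ 0)).hasDerivWithinAt.congr
        (fun v hv => by rw [max_eq_right hv]) (by simp)
    · exact (h 0 le_rfl).hasDerivWithinAt.congr (fun v hv => by rw [max_eq_left hv]) (by simp)
  · rw [max_eq_left hw.le]
    refine (h w hw.le).congr_of_eventuallyEq ?_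
    filter_upwards [Ioi_mem_nhds hw] with v hv using by rw [max_eq_left (le_of_lt hv)]

noncomputable def h0 (w : ℝ) : ℝ :=
  w ^ 2 - w / 1000 + 1 / 1000 ^ 2 - (1 / 1000) ^ 3 * (w + 1 / 1000)⁻¹ + 2 * w ^ 3 + w ^ 4
noncomputable def h1 (w : ℝ) : ℝ :=
  2 * w - 1 / 1000 + (1 / 1000) ^ 3 * (w + 1 / 1000)⁻¹ ^ 2 + 6 * w ^ 2 + 4 * w ^ 3
noncomputable def h2 (w : ℝ) : ℝ :=
  2 - 2 * ((1 / 1000) ^ 3 * (w + 1 / 1000)⁻¹ ^ 3) + 12 * w + 12 * w ^ 2

lemma dinv {w : ℝ} (hw : 0 ≤ w) :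
    HasDerivAt (fun w : ℝ => (w + 1 / 1000)⁻¹) (-(w + 1 / 1000)⁻¹ ^ 2) w := by
  have := ((hasDerivAt_id w).add_const (1 / 1000)).inv (by simp only [id]; positivity)
  refine this.congr_deriv ?_
  simp [div_eq_mul_inv]

lemma d0 (y : ℝ) : HasDerivAt (fun y => h0 (max (1 - y) 0)) (-h1 (max (1 - y) 0)) y := by
  have := (glue (φ := h0) (ψ := h1) (fun w hw => ?_) (by norm_num [h1]) (1 - y)).comp y
    ((hasDerivAt_id y).const_sub 1)
  · exact this.congr_deriv (by simp)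
  have i := hasDerivAt_id w
  refine (((((i.pow 2).sub (i.div_const 1000)).add_const (1 / 1000 ^ 2)).sub
    ((dinv hw).const_mul ((1 / 1000) ^ 3))).add ((i.pow 3).const_mul 2)).add (i.pow 4)
    |>.congr_deriv ?_
  simp only [h1, id]; push_cast; ring

lemma d1 (y : ℝ) : HasDerivAt (fun y => -h1 (max (1 - y) 0)) (h2 (max (1 - y) 0)) y := by
  have := (glue (φ := h1) (ψ := h2) (fun w hw => ?_) (by norm_num [h2]) (1 - y)).comp y
    ((hasDerivAt_id y).const_sub 1)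
  · exact this.neg.congr_deriv (by simp)
  have i := hasDerivAt_id w
  refine ((((i.const_mul 2).sub_const (1 / 1000)).add
    (((dinv hw).pow 2).const_mul ((1 / 1000) ^ 3))).add ((i.pow 2).const_mul 6)).add
    ((i.pow 3).const_mul 4) |>.congr_deriv ?_
  simp only [h2, id]; push_cast; ring

lemma cd : ContDiff ℝ 2 fun y => h0 (max (1 - y) 0) := by
  rw [← one_add_one_eq_two, contDiff_succ_iff_deriv, funext fun y => (d0 y).deriv,
    contDiff_one_iff_deriv, funext fun y => (d1 y).deriv]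
  refine ⟨fun y => (d0 y).differentiableAt, by simp, fun y => (d1 y).differentiableAt, ?_⟩
  unfold h2
  fun_prop (disch := intro x; positivity)

lemma bound {w : ℝ} (h : 0 ≤ w) (h' : w ≤ 1) :
    |(1 - w) ^ 2 * h2 w - 2 * (1 - w) * h1 w| ≤ 9 / 4 ∧ |(1 - w) * h2 w - 2 * h1 w| ≤ 27 := by
  set v := 1 / 1000 * (w + 1 / 1000)⁻¹ with hv
  have v0 : 0 < v := by positivity
  have v1 : v * (1000 * w + 1) = 1 := by rw [hv]; field_simp
  have v2 : v ≤ 1 := by nlinarith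
  have e1 : h1 w = 2 * w - (1 - v ^ 2) / 1000 + 6 * w ^ 2 + 4 * w ^ 3 := by rw [h1, hv]; ring
  have e2 : h2 w = 2 - 2 * v ^ 3 + 12 * w + 12 * w ^ 2 := by rw [h2, hv]; ring
  have a1 : v ^ 2 ≤ 1 := pow_le_one₀ v0.le v2
  have a2 : v ^ 3 ≤ v := by nlinarith
  have a3 : 0 < v ^ 3 := by positivity
  have a4 : 0 < v ^ 2 := by positivity
  have b1 : (1 - w) ^ 2 ≤ 1 := by nlinarith
  have b2 := mul_nonneg (sq_nonneg (1 - w)) a3.le
  have b3 : (1 - w) * (1 - v ^ 2) ≤ 1 := by nlinarith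
  have b4 : 0 ≤ (1 - w) * (1 - v ^ 2) := by nlinarith
  have b5 : (1 - w) ^ 2 * v ^ 3 ≤ v := by nlinarith
  have p1 : (1 - w) ^ 2 * (2 + 12 * w + 12 * w ^ 2) - 2 * (1 - w) * (2 * w + 6 * w ^ 2 + 4 * w ^ 3)
      = 2 + 4 * w - 18 * w ^ 2 - 8 * w ^ 3 + 20 * w ^ 4 := by ring
  have w2 : w ^ 2 ≤ 1 := by nlinarith
  have w3 : w ^ 3 ≤ 1 := pow_le_one₀ h h'
  have w4 : 0 ≤ w ^ 3 := by positivity
  rw [e1, e2]
  refine ⟨abs_le.2 ⟨?_, ?_⟩, abs_le.2 ⟨by nlinarith, by nlinarith⟩⟩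
  · rcases le_total w (1 / 4) with c | c
    · have : 0 ≤ 2 + 4 * w - 18 * w ^ 2 - 8 * w ^ 3 + 20 * w ^ 4 := by nlinarith
      nlinarith
    · have : -2.24 ≤ 2 + 4 * w - 18 * w ^ 2 - 8 * w ^ 3 + 20 * w ^ 4 := by
        nlinarith [sq_nonneg (w ^ 2 - 0.2 * w - 0.47), sq_nonneg (w - 0.79)]
      have : v ≤ 1 / 251 := by nlinarith
      nlinarith
  · have : 2 + 4 * w - 18 * w ^ 2 - 8 * w ^ 3 + 20 * w ^ 4 ≤ 2.24 := by
      nlinarith [sq_nonneg (w - 0.11), mul_nonneg (sq_nonneg w) (mul_nonneg h (sub_nonneg.2 h'))]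
    nlinarith

lemma lap_radial {N : ℕ} {g g1 g2 : ℝ → ℝ} (a : ∀ s, HasDerivAt g (g1 s) s)
    (b : ∀ s, HasDerivAt g1 (g2 s) s) (x : EuclideanSpace ℝ (Fin N)) :
    Laplacian.laplacian (fun x : EuclideanSpace ℝ (Fin N) => g (‖x‖ ^ 2)) x =
      4 * ‖x‖ ^ 2 * g2 (‖x‖ ^ 2) + 2 * N * g1 (‖x‖ ^ 2) := by
  have n := fun y : EuclideanSpace ℝ (Fin N) => (hasStrictFDerivAt_norm_sq y).hasFDerivAt
  have e : fderiv ℝ (fun x : EuclideanSpace ℝ (Fin N) => g (‖x‖ ^ 2)) =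
      fun y => (2 * g1 (‖y‖ ^ 2)) • innerSL ℝ y := by
    funext y
    refine ((a _).comp_hasFDerivAt y (n y)).fderiv.trans ?_
    ext v; simp; ring
  have d := (((b _).comp_hasFDerivAt x (n x)).const_mul 2).smul
    (innerSL ℝ (E := EuclideanSpace ℝ (Fin N))).hasFDerivAt
  rw [InnerProductSpace.laplacian_eq_iteratedFDeriv_orthonormalBasis _
    (EuclideanSpace.basisFun (Fin N) ℝ)]
  simp only [iteratedFDeriv_two_apply, e]
  erw [d.fderiv]
  have i1 : ∀ (y : EuclideanSpace ℝ (Fin N)) i, innerSL ℝ y (EuclideanSpace.single i 1) = y i :=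
    fun y i => by simp [EuclideanSpace.inner_single_right]
  simp [Finset.sum_add_distrib, EuclideanSpace.real_norm_sq_eq, Finset.mul_sum, Finset.sum_mul,
    EuclideanSpace.inner_single_right]
  rw [add_comm]
  congr 1
  · exact Finset.sum_congr rfl fun i _ => by erw [i1]; ring
  · rw [Finset.sum_congr rfl fun i _ => by erw [i1]]
    simp; ring

lemma final (m : ℕ) (hm : 397 ≤ m) (c : ℝ) (hc : 1.99 ≤ c) :
    ¬ c ^ (m + 3) * (0.2654 / (0.475 / (2 * ((m : ℝ) + 2))) ^ 2) ^ (m + 3) * 0.00062 ≤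
      (4 * (m + 2) ^ 2) ^ (m + 3) * ((1001 / 1000) ^ 2 * 27 ^ 2 * (9 / 4) ^ (m + 1)) := by
  intro k3
  have k : 26 / 25 * (9 / 4) * (4 * (m + 2) ^ 2) ≤
      c * (0.2654 / (0.475 / (2 * ((m : ℝ) + 2))) ^ 2) := by
    refine le_trans ?_ (mul_le_mul_of_nonneg_right hc (by positivity))
    rw [div_pow, div_div_eq_mul_div, mul_pow]
    generalize hq : ((m : ℝ) + 2) ^ 2 = q
    have : 0 ≤ q := by rw [← hq]; positivity
    norm_num; linarith
  have k4 := pow_le_pow_left₀ (by positivity) k (m + 3)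
  have k5 : (26 / 25 : ℝ) ^ (200 * 2) ≤ (26 / 25) ^ (m + 3) :=
    pow_le_pow_right₀ (by norm_num) (by omega)
  have k6 : (1000 : ℝ) ≤ (26 / 25) ^ 200 := by norm_num
  have k7 := pow_le_pow_left₀ (by norm_num) k6 2
  rw [← pow_mul] at k7
  have k8 := k7.trans k5
  rw [mul_pow c, mul_pow, mul_pow, show (9 / 4 : ℝ) ^ (m + 3) = (9 / 4) ^ (m + 1) * (9 / 4) ^ 2 by
    ring] at k4
  have p1 : (0 : ℝ) < (4 * (m + 2) ^ 2) ^ (m + 3) * (9 / 4) ^ (m + 1) := by positivity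
  have k9 := mul_le_mul_of_nonneg_right k8 p1.le
  generalize c ^ (m + 3) * (0.2654 / (0.475 / (2 * ((m : ℝ) + 2))) ^ 2) ^ (m + 3) = X at *
  generalize (4 * ((m : ℝ) + 2) ^ 2) ^ (m + 3) = Y at *
  generalize (9 / 4 : ℝ) ^ (m + 1) = Z at *
  generalize (26 / 25 : ℝ) ^ (m + 3) = W at *
  norm_num at k3 k4 k9
  nlinarith

theorem result (n : ℕ) (hn : 399 ≤ n) : ¬ Ineq (2 * n + 2) 1 := by
  intro hI
  obtain ⟨m, rfl⟩ : ∃ m, n = m + 2 := ⟨n - 2, by omega⟩
  have hm : (397 : ℝ) ≤ m := by exact_mod_cast (by omega : 397 ≤ m)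
  obtain ⟨κ, hκ⟩ : ∃ κ : ℝ, κ = 1001 / 1000 := ⟨_, rfl⟩
  have hκ0 : 0 < κ := by norm_num [hκ]
  let E := EuclideanSpace ℝ (Fin (2 * (m + 2) + 2))
  let u : E → ℝ := fun x => h0 (max (1 - κ * (‖x‖ ^ 2) ^ (m + 2)) 0)
  have root : ∀ y : ℝ, 0 < y → y ≤ 1 → ∃ r : ℝ, 0 < r ∧ r < 1 ∧ κ * (r ^ 2) ^ (m + 2) = y := by
    intro y h0 h1
    refine ⟨(y / κ) ^ ((2 * (m + 2) : ℕ) : ℝ)⁻¹, by positivity, rpow_lt_one (by positivity)
      (by rw [div_lt_one (by positivity)]; linarith) (by positivity), ?_⟩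
    rw [← pow_mul, rpow_inv_natCast_pow (by positivity) (by omega)]; field_simp
  have mono : ∀ {a b : ℝ}, 0 ≤ a → a ≤ b → κ * (a ^ 2) ^ (m + 2) ≤ κ * (b ^ 2) ^ (m + 2) :=
    fun h1 h2 => by gcongr
  obtain ⟨ρ, ρ0, ρ1, hρ⟩ := root 1 one_pos le_rfl
  have supp : tsupport u ⊆ closedBall 0 ρ := closure_minimal (fun x hx => by
    by_contra h
    rw [mem_closedBall_zero_iff, not_le] at h
    have := mono ρ0.le h.le
    exact hx (by simp only [u]; rw [max_eq_right (by linarith)]; norm_num [h0])) isClosed_closedBall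
  have key := hI u (cd.comp (contDiff_const.mul ((contDiff_norm_sq ℝ).pow _)))
    ((isCompact_closedBall 0 ρ).of_isClosed_subset (isClosed_tsupport u) supp)
    (supp.trans (closedBall_subset_ball ρ1))
  have ep : ((2 * (m + 2) + 2 : ℕ) : ℝ) / 2 = ((m + 3 : ℕ) : ℝ) := by push_cast; ring
  have dy : ∀ s : ℝ, HasDerivAt (fun s : ℝ => κ * s ^ (m + 2)) (κ * ((m + 2) * s ^ (m + 1))) s :=
    fun s => ((hasDerivAt_pow (m + 2) s).const_mul κ).congr_deriv (by push_cast; rfl)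
  have lap : ∀ x : E, Laplacian.laplacian u x = 4 * (m + 2) ^ 2 * (κ * (‖x‖ ^ 2) ^ (m + 1) *
      (κ * (‖x‖ ^ 2) ^ (m + 2) * h2 (max (1 - κ * (‖x‖ ^ 2) ^ (m + 2)) 0) -
        2 * h1 (max (1 - κ * (‖x‖ ^ 2) ^ (m + 2)) 0))) := fun x => by
    have := lap_radial (fun s => (d0 _).comp s (dy s)) (fun s => ((d1 _).comp s (dy s)).mul
      (((hasDerivAt_pow (m + 1) s).const_mul ((m : ℝ) + 2)).const_mul κ)) x
    refine this.trans ?_
    simp only [Function.comp, Nat.add_sub_cancel]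
    push_cast; ring
  have up : ∀ x ∈ ball (0 : E) 1, |Laplacian.laplacian u x| ^ (m + 3) ≤
      (4 * (m + 2) ^ 2) ^ (m + 3) * (κ ^ 2 * 27 ^ 2 * (9 / 4) ^ (m + 1)) := fun x hx => by
    rw [lap, abs_mul, mul_pow, abs_of_nonneg (by positivity)]
    gcongr
    have s1 : ‖x‖ ^ 2 ≤ 1 := pow_le_one₀ (norm_nonneg _) (mem_ball_zero_iff.1 hx).le
    have s0 : 0 ≤ ‖x‖ ^ 2 := by positivity
    generalize ‖x‖ ^ 2 = s at *
    rcases le_total (κ * s ^ (m + 2)) 1 with c | c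
    · obtain ⟨b1, b2⟩ := bound (w := 1 - κ * s ^ (m + 2)) (by linarith) (by
        have : 0 ≤ κ * s ^ (m + 2) := by positivity
        linarith)
      rw [max_eq_left (by linarith)]
      rw [sub_sub_cancel] at b1 b2
      generalize h1 (1 - κ * s ^ (m + 2)) = A at *
      generalize h2 (1 - κ * s ^ (m + 2)) = B at *
      set F := κ * s ^ (m + 2) * B - 2 * A
      rw [show (κ * s ^ (m + 2)) ^ 2 * B - 2 * (κ * s ^ (m + 2)) * A = κ * s ^ (m + 2) * F by
        simp only [F]; ring, abs_mul, abs_of_nonneg (by positivity)] at b1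
      rw [abs_mul, abs_of_nonneg (by positivity)]
      calc _ = κ ^ 2 * |F| ^ 2 * (κ * s ^ (m + 2) * |F|) ^ (m + 1) * s ^ (m + 1) := by ring
        _ ≤ κ ^ 2 * 27 ^ 2 * (9 / 4) ^ (m + 1) * 1 := by gcongr; exact pow_le_one₀ s0 s1
        _ = _ := mul_one _
    · rw [max_eq_right (by linarith), show h1 0 = 0 by norm_num [h1], show h2 0 = 0 by norm_num [h2]]
      simp only [mul_zero, sub_zero, abs_zero, ne_eq, Nat.add_eq_zero_iff, OfNat.ofNat_ne_zero,
        and_false, not_false_eq_true, zero_pow]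
      positivity
  obtain ⟨r1, a0, a1, a2⟩ := root 0.624 (by norm_num) (by norm_num)
  obtain ⟨r2, b0, b1, b2⟩ := root 0.625 (by norm_num) (by norm_num)
  have low : ∀ x ∈ ball (0 : E) r2 \ ball 0 r1, (0.2654 / (0.475 / (2 * (m + 2))) ^ 2) ^ (m + 3) ≤
      |u x| ^ (m + 3) / (‖x‖ ^ (2 * (m + 2) + 2) * log (1 / ‖x‖) ^ (2 * (m + 2) + 2)) := by
    rintro x ⟨x1, x2⟩
    rw [mem_ball_zero_iff] at x1 x2
    have x3 := not_lt.1 x2
    have c1 := mono a0.le x3
    have c2 := mono (norm_nonneg x) x1.le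
    have x0 : 0 < ‖x‖ := a0.trans_le x3
    have l0 : 0 < log (1 / ‖x‖) := log_pos ((one_lt_div x0).2 (x1.trans b1))
    have l1 : log (1 / ‖x‖) ≤ 0.475 / (2 * (m + 2)) := by
      rw [le_div_iff₀ (by positivity), mul_comm, show 2 * ((m : ℝ) + 2) = (2 * (m + 2) : ℕ) by
        push_cast; rfl, ← log_pow, log_le_iff_le_exp (by positivity), one_div, inv_pow, pow_mul,
        inv_le_comm₀ (by positivity) (exp_pos _), inv_le_comm₀ (exp_pos _) (by positivity)]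
      have : 1.6077 ≤ exp 0.475 := by
        refine le_trans ?_ (sum_le_exp_of_nonneg (x := 0.475) (by norm_num) 5)
        simp only [Finset.sum_range_succ, Finset.range_zero, Finset.sum_empty, Nat.factorial]
        norm_num
      refine le_trans ?_ this
      rw [inv_le_comm₀ (by positivity) (by norm_num)]
      rw [a2, hκ] at c1
      norm_num at c1 ⊢
      linarith
    have u0 : 0.2654 ≤ |u x| := by
      refine le_trans ?_ (le_abs_self _)
      simp only [u]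
      rw [max_eq_left (by linarith)]
      have w1 : 0.375 ≤ 1 - κ * (‖x‖ ^ 2) ^ (m + 2) := by linarith
      have w2 : 1 - κ * (‖x‖ ^ 2) ^ (m + 2) ≤ 0.376 := by linarith
      generalize 1 - κ * (‖x‖ ^ 2) ^ (m + 2) = w at *
      have : (w + 1 / 1000)⁻¹ ≤ 3 := by rw [inv_le_comm₀ (by linarith) (by norm_num)]; linarith
      have p2 : 0.375 ^ 2 ≤ w ^ 2 := by gcongr
      have p3 : 0.375 ^ 3 ≤ w ^ 3 := by gcongr
      have p4 : 0.375 ^ 4 ≤ w ^ 4 := by gcongr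
      rw [h0]; norm_num at *; linarith
    rw [div_pow, ← pow_mul, show 2 * (m + 3) = 2 * (m + 2) + 2 by ring]
    gcongr
    calc _ ≤ 1 * (0.475 / (2 * ((m : ℝ) + 2))) ^ (2 * (m + 2) + 2) := by
          gcongr; exact pow_le_one₀ x0.le (x1.trans b1).le
      _ = _ := one_mul _
  set β := volume (ball (0 : E) 1)
  have β0 : β ≠ 0 := (measure_ball_pos _ _ one_pos).ne'
  have β1 : β ≠ ⊤ := measure_ball_lt_top.ne
  have r12 : r1 ≤ r2 := by
    by_contra h
    have := mono b0.le (not_le.1 h).le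
    linarith
  have vol : ENNReal.ofReal 0.00062 * β ≤ volume (ball (0 : E) r2 \ ball 0 r1) := by
    rw [measure_diff (ball_subset_ball r12) measurableSet_ball.nullMeasurableSet
      measure_ball_lt_top.ne, Measure.addHaar_ball_of_pos _ _ a0, Measure.addHaar_ball_of_pos _ _ b0,
      ← ENNReal.sub_mul fun _ _ => β1, ← ENNReal.ofReal_sub _ (by positivity)]
    gcongr
    simp only [E, finrank_euclideanSpace, Fintype.card_fin, pow_add _ (2 * (m + 2)), pow_mul]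
    have c1 : (r2 ^ 2) ^ (m + 2) ≤ r2 ^ 2 := pow_le_of_le_one (by positivity)
      (pow_le_one₀ b0.le b1.le) (by omega)
    have c2 : r1 ^ 2 ≤ r2 ^ 2 := by gcongr
    generalize (r2 ^ 2) ^ (m + 2) = B at *
    generalize (r1 ^ 2) ^ (m + 2) = A at *
    rw [hκ] at a2 b2
    have e1 : A = 624 / 1001 := by norm_num at a2; linarith
    have e2 : B = 625 / 1001 := by norm_num at b2; linarith
    rw [e2] at c1
    rw [e1, e2]
    norm_num
    linarith
  simp only [C, ep, rpow_natCast, Nat.cast_ofNat] at key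
  have k1 := (setLIntegral_mono' (μ := volume) measurableSet_ball fun x hx =>
    ENNReal.ofReal_le_ofReal (up x hx)).trans_eq (setLIntegral_const _ _)
  have k2 := ((setLIntegral_const _ _).symm.le.trans (setLIntegral_mono'
    (measurableSet_ball.diff measurableSet_ball) fun x hx => ENNReal.ofReal_le_ofReal
      (low x hx))).trans (lintegral_mono_set (μ := volume)
        (diff_subset.trans (ball_subset_ball b1.le)))
  have k3 := ((mul_le_mul_right ((mul_le_mul_right vol _).trans k2) _).trans key).trans k1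
  have hC : (1.99 : ℝ) ≤ ∏ j ∈ Finset.Icc 1 2, (((j : ℕ) : ℝ) * (2 * (m + 2) + 2 : ℕ) - 2) /
      (2 * (m + 2) + 2 : ℕ) := by
    rw [show Finset.Icc 1 2 = {1, 2} by rfl, Finset.prod_pair (by norm_num), div_mul_div_comm,
      le_div_iff₀ (by positivity)]
    push_cast
    clear * - hm
    have : (1.99 : ℝ) = 199 / 100 := by norm_num
    rw [this]
    nlinarith
  generalize ∏ j ∈ Finset.Icc 1 2, (((j : ℕ) : ℝ) * (2 * (m + 2) + 2 : ℕ) - 2) /
      (2 * (m + 2) + 2 : ℕ) = c at *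
  have c0 : 0 < c := lt_of_lt_of_le (by norm_num) hC
  rw [← mul_assoc, ← mul_assoc, ENNReal.mul_le_mul_iff_left β0 β1,
    ← ENNReal.ofReal_mul (by positivity), ← ENNReal.ofReal_mul (by positivity),
    ENNReal.ofReal_le_ofReal_iff (by positivity), hκ] at k3
  exact final m (by omega) c hC k3

end Pool.Agent.Results.MP_ec5c38_an.No
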